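import Mathlib

set_option autoImplicit false

/-!
# MP_7f8e47_co, Q1: the answer is yes, with `N = 7`

In the Tribonacci game on `n ≥ 1` Player 2 has a winning strategy if and only if `n` is not 2, 3
or 6.

Proof for `n ≥ 10`. Write `[T]` for the position with the terms `T` and the remaining terms equal
to `S_1 = 1`. The first move leads to `[2]`. If the player to move had no winning strategy there, he
would have one at `[4]` and not at its only option `[2, 4]`; so he would have one at the options
`[4, 4]` and `[7]` of `[2, 4]`. The only option of `[7]` is `[2, 7]`, and the only options of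
`[4, 4]` are `[7]` and `[2, 4, 4]`. So he would have no winning strategy at `[2, 7]` and at
`[2, 4, 4]`. But `[2, 7]` is an option of `[2, 4, 4]`.
-/

namespace Pool.Agent.Results.MP_7f8e47_co.PlayerTwoWins

/-- A position is a multiset of indices; the index `i ≥ 1` stands for the term `S_i`. `Rule A B`:
the terms `A` may be replaced by the terms `B`. -/
def Rule (A B : Multiset ℕ) : Prop :=
  (∃ i, 3 ≤ i ∧ A = {i - 2, i - 1, i} ∧ B = {i + 1}) ∨
  (A = {1, 1, 2} ∧ B = {3}) ∨
  (A = {1, 1} ∧ B = {2}) ∨
  (A = {2, 2} ∧ B = {3}) ∨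
  (A = {3, 3} ∧ B = {4, 1}) ∨
  (∃ i, 4 ≤ i ∧ A = {i, i} ∧ B = {i + 1, i - 3})

/-- `Move X Y`: there is a move from the position `X` to the position `Y`. -/
def Move (X Y : Multiset ℕ) : Prop := ∃ A B, Rule A B ∧ A ≤ X ∧ Y = X - A + B

/-- The player to move at `X` has a winning strategy (the last mover wins): he has a move to a
position `Y` such that after every move of the opponent he again has a winning strategy. -/
inductive NextWins : Multiset ℕ → Prop
  | intro (X Y : Multiset ℕ) : Move X Y → (∀ Z, Move Y Z → NextWins Z) → NextWins X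

/-- The player who is not to move at `X` has a winning strategy. -/
def PrevWins (X : Multiset ℕ) : Prop := ∀ Y, Move X Y → NextWins Y

/-- Player 2 has a winning strategy in the Tribonacci game on `n`. -/
def SecondWins (n : ℕ) : Prop := PrevWins (Multiset.replicate n 1)

/-! ### Determinacy -/

/-- The sum of the indices plus the number of terms decreases with every move. -/
def size (X : Multiset ℕ) : ℕ := (X.map (fun i => i + 1)).sum

theorem size_add (X Y : Multiset ℕ) : size (X + Y) = size X + size Y := by
  simp [size, Multiset.map_add]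

theorem size_lt {X Y : Multiset ℕ} (h : Move X Y) : size Y < size X := by
  obtain ⟨A, B, hR, hA, rfl⟩ := h
  have h1 : size X = size (X - A) + size A := by
    rw [← size_add, Multiset.sub_add_cancel hA]
  rw [size_add, h1]
  have h2 : size B < size A := by
    rcases hR with ⟨i, hi, rfl, rfl⟩ | ⟨rfl, rfl⟩ | ⟨rfl, rfl⟩ | ⟨rfl, rfl⟩ | ⟨rfl, rfl⟩ |
      ⟨i, hi, rfl, rfl⟩ <;> simp [size] <;> omega
  omega

theorem next_iff (X : Multiset ℕ) : NextWins X ↔ ∃ Y, Move X Y ∧ PrevWins Y := by
  constructor
  · rintro ⟨_, Y, h1, h2⟩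
    exact ⟨Y, h1, h2⟩
  · rintro ⟨Y, h1, h2⟩
    exact ⟨X, Y, h1, h2⟩

/-- Exactly one of the players has a winning strategy. -/
theorem prev_iff (X : Multiset ℕ) : PrevWins X ↔ ¬ NextWins X := by
  induction h : size X using Nat.strong_induction_on generalizing X with
  | _ m ih =>
    subst h
    rw [next_iff]
    constructor
    · rintro h ⟨Y, h1, h2⟩
      exact (ih _ (size_lt h1) Y rfl).1 h2 (h Y h1)
    · intro h Y h1
      by_contra h2
      exact h ⟨Y, h1, (ih _ (size_lt h1) Y rfl).2 h2⟩

/-! ### Positions with few terms other than 1 -/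

/-- The position with `a`, `b`, `c`, `d` terms `S_1`, `S_2`, `S_3`, `S_4`. -/
def pos (a b c d : ℕ) : Multiset ℕ :=
  Multiset.replicate a 1 + Multiset.replicate b 2 + Multiset.replicate c 3 +
    Multiset.replicate d 4

theorem count_pos (a b c d i : ℕ) : (pos a b c d).count i =
    (if i = 1 then a else 0) + (if i = 2 then b else 0) + (if i = 3 then c else 0) +
      (if i = 4 then d else 0) := by
  simp [pos, Multiset.count_replicate, eq_comm]

/-- The options of a position with at most one `S_4`, and with no `S_3` if there is one `S_4`. -/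
theorem move_pos_iff {a b c d : ℕ} (hd : d ≤ 1) (hcd : d = 0 ∨ c = 0) (Y : Multiset ℕ) :
    Move (pos a b c d) Y ↔
      (1 ≤ a ∧ 1 ≤ b ∧ 1 ≤ c ∧ Y = pos (a - 1) (b - 1) (c - 1) (d + 1)) ∨
      (2 ≤ a ∧ 1 ≤ b ∧ Y = pos (a - 2) (b - 1) (c + 1) d) ∨
      (2 ≤ a ∧ Y = pos (a - 2) (b + 1) c d) ∨
      (2 ≤ b ∧ Y = pos a (b - 2) (c + 1) d) ∨
      (2 ≤ c ∧ Y = pos (a + 1) b (c - 2) (d + 1)) := by
  constructor
  · rintro ⟨A, B, hR, hA, rfl⟩
    rw [Multiset.le_iff_count] at hA
    rcases hR with ⟨i, hi, rfl, rfl⟩ | ⟨rfl, rfl⟩ | ⟨rfl, rfl⟩ | ⟨rfl, rfl⟩ | ⟨rfl, rfl⟩ |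
      ⟨i, hi, rfl, rfl⟩
    · have h1 := hA i
      have h2 := hA (i - 1)
      have h3 := hA (i - 2)
      rw [count_pos] at h1 h2 h3
      simp only [Multiset.insert_eq_cons, Multiset.count_cons, Multiset.count_singleton] at h1 h2 h3
      have h4 : i = 3 ∨ i = 4 := by
        by_contra h4
        have h5 : i ≠ 1 ∧ i ≠ 2 ∧ i ≠ 3 ∧ i ≠ 4 := by omega
        simp [h5.1, h5.2.1, h5.2.2.1, h5.2.2.2] at h1
      rcases h4 with rfl | rfl
      · simp at h1 h2 h3
        left
        refine ⟨h3, h2, h1, ?_⟩
        ext j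
        rw [Multiset.count_add, Multiset.count_sub, count_pos, count_pos]
        simp only [Multiset.insert_eq_cons, Multiset.count_cons, Multiset.count_singleton]
        split_ifs <;> omega
      · simp at h1 h2 h3
        omega
    · have h1 := hA 1
      have h2 := hA 2
      rw [count_pos] at h1 h2
      simp at h1 h2
      right; left
      refine ⟨h1, h2, ?_⟩
      ext j
      rw [Multiset.count_add, Multiset.count_sub, count_pos, count_pos]
      simp only [Multiset.insert_eq_cons, Multiset.count_cons, Multiset.count_singleton]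
      split_ifs <;> omega
    · have h1 := hA 1
      rw [count_pos] at h1
      simp at h1
      right; right; left
      refine ⟨h1, ?_⟩
      ext j
      rw [Multiset.count_add, Multiset.count_sub, count_pos, count_pos]
      simp only [Multiset.insert_eq_cons, Multiset.count_cons, Multiset.count_singleton]
      split_ifs <;> omega
    · have h1 := hA 2
      rw [count_pos] at h1
      simp at h1
      right; right; right; left
      refine ⟨h1, ?_⟩
      ext j
      rw [Multiset.count_add, Multiset.count_sub, count_pos, count_pos]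
      simp only [Multiset.insert_eq_cons, Multiset.count_cons, Multiset.count_singleton]
      split_ifs <;> omega
    · have h1 := hA 3
      rw [count_pos] at h1
      simp at h1
      right; right; right; right
      refine ⟨h1, ?_⟩
      ext j
      rw [Multiset.count_add, Multiset.count_sub, count_pos, count_pos]
      simp only [Multiset.insert_eq_cons, Multiset.count_cons, Multiset.count_singleton]
      split_ifs <;> omega
    · exfalso
      have h1 := hA i
      rw [count_pos] at h1
      simp only [Multiset.insert_eq_cons, Multiset.count_cons, Multiset.count_singleton] at h1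
      split_ifs at h1 <;> omega
  · rintro (⟨h1, h2, h3, rfl⟩ | ⟨h1, h2, rfl⟩ | ⟨h1, rfl⟩ | ⟨h1, rfl⟩ | ⟨h1, rfl⟩)
    · refine ⟨{1, 2, 3}, {4}, Or.inl ⟨3, le_rfl, rfl, rfl⟩, ?_, ?_⟩
      · rw [Multiset.le_iff_count]
        intro j
        rw [count_pos]
        simp only [Multiset.insert_eq_cons, Multiset.count_cons, Multiset.count_singleton]
        split_ifs <;> omega
      · ext j
        rw [Multiset.count_add, Multiset.count_sub, count_pos, count_pos]
        simp only [Multiset.insert_eq_cons, Multiset.count_cons, Multiset.count_singleton]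
        split_ifs <;> omega
    · refine ⟨{1, 1, 2}, {3}, Or.inr (Or.inl ⟨rfl, rfl⟩), ?_, ?_⟩
      · rw [Multiset.le_iff_count]
        intro j
        rw [count_pos]
        simp only [Multiset.insert_eq_cons, Multiset.count_cons, Multiset.count_singleton]
        split_ifs <;> omega
      · ext j
        rw [Multiset.count_add, Multiset.count_sub, count_pos, count_pos]
        simp only [Multiset.insert_eq_cons, Multiset.count_cons, Multiset.count_singleton]
        split_ifs <;> omega
    · refine ⟨{1, 1}, {2}, Or.inr (Or.inr (Or.inl ⟨rfl, rfl⟩)), ?_, ?_⟩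
      · rw [Multiset.le_iff_count]
        intro j
        rw [count_pos]
        simp only [Multiset.insert_eq_cons, Multiset.count_cons, Multiset.count_singleton]
        split_ifs <;> omega
      · ext j
        rw [Multiset.count_add, Multiset.count_sub, count_pos, count_pos]
        simp only [Multiset.insert_eq_cons, Multiset.count_cons, Multiset.count_singleton]
        split_ifs <;> omega
    · refine ⟨{2, 2}, {3}, Or.inr (Or.inr (Or.inr (Or.inl ⟨rfl, rfl⟩))), ?_, ?_⟩
      · rw [Multiset.le_iff_count]
        intro j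
        rw [count_pos]
        simp only [Multiset.insert_eq_cons, Multiset.count_cons, Multiset.count_singleton]
        split_ifs <;> omega
      · ext j
        rw [Multiset.count_add, Multiset.count_sub, count_pos, count_pos]
        simp only [Multiset.insert_eq_cons, Multiset.count_cons, Multiset.count_singleton]
        split_ifs <;> omega
    · refine ⟨{3, 3}, {4, 1}, Or.inr (Or.inr (Or.inr (Or.inr (Or.inl ⟨rfl, rfl⟩)))), ?_, ?_⟩
      · rw [Multiset.le_iff_count]
        intro j
        rw [count_pos]
        simp only [Multiset.insert_eq_cons, Multiset.count_cons, Multiset.count_singleton]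
        split_ifs <;> omega
      · ext j
        rw [Multiset.count_add, Multiset.count_sub, count_pos, count_pos]
        simp only [Multiset.insert_eq_cons, Multiset.count_cons, Multiset.count_singleton]
        split_ifs <;> omega

theorem replicate_eq (n : ℕ) : Multiset.replicate n 1 = pos n 0 0 0 := by
  simp [pos]

theorem next_pos {a b c d : ℕ} (hd : d ≤ 1) (hcd : d = 0 ∨ c = 0) : NextWins (pos a b c d) ↔
      (1 ≤ a ∧ 1 ≤ b ∧ 1 ≤ c ∧ ¬ NextWins (pos (a - 1) (b - 1) (c - 1) (d + 1))) ∨
      (2 ≤ a ∧ 1 ≤ b ∧ ¬ NextWins (pos (a - 2) (b - 1) (c + 1) d)) ∨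
      (2 ≤ a ∧ ¬ NextWins (pos (a - 2) (b + 1) c d)) ∨
      (2 ≤ b ∧ ¬ NextWins (pos a (b - 2) (c + 1) d)) ∨
      (2 ≤ c ∧ ¬ NextWins (pos (a + 1) b (c - 2) (d + 1))) := by
  rw [next_iff]
  simp only [move_pos_iff hd hcd, prev_iff]
  constructor
  · rintro ⟨Y, ⟨h1, h2, h3, rfl⟩ | ⟨h1, h2, rfl⟩ | ⟨h1, rfl⟩ | ⟨h1, rfl⟩ | ⟨h1, rfl⟩, h⟩
    · exact Or.inl ⟨h1, h2, h3, h⟩
    · exact Or.inr (Or.inl ⟨h1, h2, h⟩)
    · exact Or.inr (Or.inr (Or.inl ⟨h1, h⟩))
    · exact Or.inr (Or.inr (Or.inr (Or.inl ⟨h1, h⟩)))
    · exact Or.inr (Or.inr (Or.inr (Or.inr ⟨h1, h⟩)))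
  · rintro (⟨h1, h2, h3, h⟩ | ⟨h1, h2, h⟩ | ⟨h1, h⟩ | ⟨h1, h⟩ | ⟨h1, h⟩)
    · exact ⟨_, Or.inl ⟨h1, h2, h3, rfl⟩, h⟩
    · exact ⟨_, Or.inr (Or.inl ⟨h1, h2, rfl⟩), h⟩
    · exact ⟨_, Or.inr (Or.inr (Or.inl ⟨h1, rfl⟩)), h⟩
    · exact ⟨_, Or.inr (Or.inr (Or.inr (Or.inl ⟨h1, rfl⟩))), h⟩
    · exact ⟨_, Or.inr (Or.inr (Or.inr (Or.inr ⟨h1, rfl⟩))), h⟩

theorem large (n : ℕ) (hn : 10 ≤ n) : SecondWins n := by
  unfold SecondWins
  rw [prev_iff, replicate_eq, next_pos (by omega) (by omega)]
  rintro (h | h | ⟨-, h⟩ | h | h)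
  · omega
  · omega
  · -- the position `[2]`
    rw [next_pos (by omega) (by omega)] at h
    push Not at h
    obtain ⟨-, h4, -, -, -⟩ := h
    have h4 := h4 (by omega) (by omega)
    simp only [Nat.zero_add, Nat.sub_self] at h4
    -- the position `[4]`
    rw [next_pos (by omega) (by omega)] at h4
    rcases h4 with h | h | ⟨-, h⟩ | h | h
    · omega
    · omega
    · -- the position `[2, 4]`
      rw [next_pos (by omega) (by omega)] at h
      push Not at h
      obtain ⟨h7, h44, -, -, -⟩ := h
      have h7 := h7 (by omega) (by omega) (by omega)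
      have h44 := h44 (by omega) (by omega)
      simp only [Nat.zero_add, Nat.sub_self] at h7 h44
      -- the position `[7]`
      have h7' := h7
      rw [next_pos (by omega) (by omega)] at h7
      have h27 : ¬ NextWins (pos (n - 2 - 2 - 2 - 1 - 2) 1 0 1) := by
        rcases h7 with h | h | ⟨-, h⟩ | h | h
        · omega
        · omega
        · exact h
        · omega
        · omega
      -- the position `[4, 4]`
      rw [next_pos (by omega) (by omega)] at h44
      rcases h44 with h | h | ⟨-, h⟩ | h | ⟨-, h⟩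
      · omega
      · omega
      · rw [next_pos (by omega) (by omega)] at h
        push Not at h
        obtain ⟨-, -, -, -, h⟩ := h
        have h := h (by omega)
        apply h27
        convert h using 2
        omega
      · omega
      · apply h
        convert h7' using 2
        omega
    · omega
    · omega
  · omega
  · omega

/-! ### Small `n` -/

/-- Bounded search for the positions with at most 9 tokens. -/
def w : ℕ → ℕ → ℕ → ℕ → ℕ → Bool
  | 0, _, _, _, _ => false
  | k + 1, a, b, c, d =>
    (decide (1 ≤ a) && decide (1 ≤ b) && decide (1 ≤ c) &&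
      !w k (a - 1) (b - 1) (c - 1) (d + 1)) ||
    (decide (2 ≤ a) && decide (1 ≤ b) && !w k (a - 2) (b - 1) (c + 1) d) ||
    (decide (2 ≤ a) && !w k (a - 2) (b + 1) c d) ||
    (decide (2 ≤ b) && !w k a (b - 2) (c + 1) d) ||
    (decide (2 ≤ c) && !w k (a + 1) b (c - 2) (d + 1))

theorem w_spec (k : ℕ) : ∀ a b c d, a + 2 * b + 4 * c + 7 * d ≤ 9 →
    2 * a + 3 * b + 4 * c + 5 * d ≤ k → (NextWins (pos a b c d) ↔ w k a b c d = true) := by
  induction k with
  | zero =>
    intro a b c d _ h
    rw [next_pos (by omega) (by omega)]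
    simp only [w, Bool.false_eq_true, iff_false]
    omega
  | succ k ih =>
    intro a b c d h1 h2
    rw [next_pos (by omega) (by omega)]
    simp only [w, Bool.or_eq_true, Bool.and_eq_true, decide_eq_true_eq, Bool.not_eq_true',
      ← Bool.not_eq_true, and_assoc, or_assoc]
    refine or_congr ?_ (or_congr ?_ (or_congr ?_ (or_congr ?_ ?_)))
    · refine and_congr_right fun g1 => and_congr_right fun g2 => and_congr_right fun g3 => ?_
      rw [ih _ _ _ _ (by omega) (by omega)]
    · refine and_congr_right fun g1 => and_congr_right fun g2 => ?_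
      rw [ih _ _ _ _ (by omega) (by omega)]
    · refine and_congr_right fun g1 => ?_
      rw [ih _ _ _ _ (by omega) (by omega)]
    · refine and_congr_right fun g1 => ?_
      rw [ih _ _ _ _ (by omega) (by omega)]
    · refine and_congr_right fun g1 => ?_
      rw [ih _ _ _ _ (by omega) (by omega)]

/-- Player 2 has a winning strategy in the Tribonacci game on `n ≥ 1` if and only if `n` is not
2, 3 or 6. In particular Player 2 wins for every `n ≥ 7`. -/
theorem result (n : ℕ) (hn : 1 ≤ n) : SecondWins n ↔ n ≠ 2 ∧ n ≠ 3 ∧ n ≠ 6 := by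
  rcases Nat.lt_or_ge n 10 with h | h
  · have h1 : SecondWins n ↔ w 18 n 0 0 0 ≠ true := by
      unfold SecondWins
      rw [prev_iff, replicate_eq, w_spec 18 n 0 0 0 (by omega) (by omega)]
    rw [h1]
    interval_cases n <;> decide
  · have h1 := large n h
    exact ⟨fun _ => by omega, fun _ => h1⟩

end Pool.Agent.Results.MP_7f8e47_co.PlayerTwoWins
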